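import Mathlib

namespace Pool.Agent.P.MP_be6357_al

open MvPolynomial

variable {K : Type*} [Field K] {n : ℕ}

/-- The ideal generated by the monomials `x^a`, `a ∈ A`. -/
noncomputable def monIdeal (K : Type*) [Field K] (A : Set (Fin n →₀ ℕ)) :
    Ideal (MvPolynomial (Fin n) K) :=
  Ideal.span ((fun a => monomial a (1 : K)) '' A)

/-- The exponents of the monomials lying in `J`. -/
def exps (J : Ideal (MvPolynomial (Fin n) K)) : Set (Fin n →₀ ℕ) :=
  {a | monomial a (1 : K) ∈ J}

/-- The exponents of the minimal monomial generators: the monomials of `J` that are minimal for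
divisibility. -/
def gens (J : Ideal (MvPolynomial (Fin n) K)) : Set (Fin n →₀ ℕ) :=
  {a | Minimal (fun b => b ∈ exps J) a}

/-- A polymatroidal ideal: a monomial ideal, generated in one degree, with the exchange property. -/
structure IsPolymatroidal (I : Ideal (MvPolynomial (Fin n) K)) : Prop where
  monomial_ideal : I = monIdeal K (exps I)
  same_degree : ∀ u ∈ gens I, ∀ v ∈ gens I, ∑ j, u j = ∑ j, v j
  exchange : ∀ u ∈ gens I, ∀ v ∈ gens I, ∀ i, v i < u i →
    ∃ j, u j < v j ∧ u - Finsupp.single i 1 + Finsupp.single j 1 ∈ exps I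

/-- `c = ∑ c(F) e_F` is an element of multidegree `a` of the `i`-th module `⊕_{|F| = i} J e_F` of
the Koszul complex of `J` on `x_1, …, x_n`, where `e_F` has the multidegree of `∏_{j ∈ F} x_j`. -/
def IsChain (J : Ideal (MvPolynomial (Fin n) K)) (i : ℕ) (a : Fin n →₀ ℕ)
    (c : Finset (Fin n) → MvPolynomial (Fin n) K) : Prop :=
  ∀ F, c F ∈ J ∧ (F.card ≠ i → c F = 0) ∧ ∃ r : K, (∏ j ∈ F, X j) * c F = monomial a r

/-- The Koszul differential `e_F ↦ ∑_{j ∈ F} (-1)^{#{l ∈ F, l < j}} x_j e_{F \ j}`, written on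
coefficients. -/
noncomputable def koszulD (c : Finset (Fin n) → MvPolynomial (Fin n) K) :
    Finset (Fin n) → MvPolynomial (Fin n) K :=
  fun G => ∑ j ∈ Gᶜ, (-1) ^ (G.filter (· < j)).card * X j * c (insert j G)

/-- `Tor_i^S(K, J)_a ≠ 0`, with `Tor` computed by the Koszul resolution of `K`: some `i`-cycle of
multidegree `a` is not a boundary. -/
def TorNonzero (J : Ideal (MvPolynomial (Fin n) K)) (i : ℕ) (a : Fin n →₀ ℕ) : Prop :=
  ∃ z, IsChain J i a z ∧ koszulD z = 0 ∧ ¬ ∃ w, IsChain J (i + 1) a w ∧ koszulD w = z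

/-- The `i`-th homological shift ideal. -/
noncomputable def HS (i : ℕ) (J : Ideal (MvPolynomial (Fin n) K)) :
    Ideal (MvPolynomial (Fin n) K) :=
  monIdeal K {a | TorNonzero J i a}

end Pool.Agent.P.MP_be6357_al
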