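import Pool.Agent.P.MP_be6357_al.Shift
import Pool.Agent.P.MP_be6357_al.Defs

namespace Pool.Agent.P.MP_be6357_al

open MvPolynomial Finset

variable {K : Type*} [Field K] {n : ℕ}

theorem mem_monIdeal {A : Set (Fin n →₀ ℕ)} {f : MvPolynomial (Fin n) K} :
    f ∈ monIdeal K A ↔ ∀ b ∈ f.support, ∃ a ∈ A, a ≤ b :=
  mem_ideal_span_monomial_image

theorem mem_exps_monIdeal {A : Set (Fin n →₀ ℕ)} {b : Fin n →₀ ℕ} :
    b ∈ exps (monIdeal K A) ↔ ∃ a ∈ A, a ≤ b := by
  classical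
  simp [exps, mem_monIdeal, support_monomial]

theorem monIdeal_mul (A B : Set (Fin n →₀ ℕ)) :
    monIdeal K A * monIdeal K B = monIdeal K {c | ∃ a ∈ A, ∃ b ∈ B, a + b = c} := by
  unfold monIdeal
  rw [Ideal.span_mul_span']
  congr 1
  ext f
  constructor
  · rintro ⟨_, ⟨a, ha, rfl⟩, _, ⟨b, hb, rfl⟩, rfl⟩
    exact ⟨a + b, ⟨a, ha, b, hb, rfl⟩, by simp [monomial_mul]⟩
  · rintro ⟨_, ⟨a, ha, b, hb, rfl⟩, rfl⟩
    exact ⟨_, ⟨a, ha, rfl⟩, _, ⟨b, hb, rfl⟩, by simp [monomial_mul]⟩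

/-- The exponent vector of a squarefree monomial. -/
noncomputable def indF (F : Finset (Fin n)) : Fin n →₀ ℕ := ∑ j ∈ F, Finsupp.single j 1

theorem indF_apply (F : Finset (Fin n)) (l : Fin n) : indF F l = if l ∈ F then 1 else 0 := by
  simp [indF, Finsupp.finsetSum_apply, Finsupp.single_apply]

theorem prod_X_eq (F : Finset (Fin n)) :
    (∏ j ∈ F, X j : MvPolynomial (Fin n) K) = monomial (indF F) 1 := by
  rw [indF, monomial_sum_one]
  rfl

/-- A polynomial chain of multidegree `a` and its scalar coefficients. -/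
def Rel (a : Fin n →₀ ℕ) (c : Finset (Fin n) → MvPolynomial (Fin n) K)
    (z : Finset (Fin n) → K) : Prop :=
  ∀ F, (∏ j ∈ F, X j) * c F = monomial a (z F)

theorem prod_X_ne_zero (F : Finset (Fin n)) :
    (∏ j ∈ F, X j : MvPolynomial (Fin n) K) ≠ 0 :=
  prod_ne_zero_iff.mpr fun j _ => X_ne_zero j

theorem Rel.eq_iff {a : Fin n →₀ ℕ} {c c' : Finset (Fin n) → MvPolynomial (Fin n) K}
    {z z' : Finset (Fin n) → K} (h : Rel a c z) (h' : Rel a c' z') : c = c' ↔ z = z' := by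
  constructor
  · rintro rfl
    ext F
    simpa using congrArg (coeff a) ((h F).symm.trans (h' F))
  · rintro rfl
    funext F
    exact mul_left_cancel₀ (prod_X_ne_zero F) ((h F).trans (h' F).symm)

theorem rel_zero (a : Fin n →₀ ℕ) :
    Rel a (0 : Finset (Fin n) → MvPolynomial (Fin n) K) 0 := by
  intro F
  simp

theorem Rel.koszulD {a : Fin n →₀ ℕ} {c : Finset (Fin n) → MvPolynomial (Fin n) K}
    {z : Finset (Fin n) → K} (h : Rel a c z) : Rel a (koszulD c) (bd z) := by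
  intro G
  simp only [Pool.Agent.P.MP_be6357_al.koszulD, bd, mul_sum, map_sum]
  refine sum_congr rfl fun j hj => ?_
  have h1 := h (insert j G)
  rw [prod_insert (mem_compl.mp hj)] at h1
  rw [← smul_eq_mul (sg K j G), map_smul, ← h1, smul_eq_C_mul, sg]
  simp only [map_pow, map_neg, map_one]
  ring

/-- The upper Koszul simplicial complex of `J` in degree `a`. -/
def Kz (J : Ideal (MvPolynomial (Fin n) K)) (a : Fin n →₀ ℕ) (F : Finset (Fin n)) : Prop :=
  indF F ≤ a ∧ a - indF F ∈ exps J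

theorem IsChain.exists_rel {J : Ideal (MvPolynomial (Fin n) K)} {i : ℕ} {a : Fin n →₀ ℕ}
    {c : Finset (Fin n) → MvPolynomial (Fin n) K} (h : IsChain J i a c) :
    ∃ z, Rel a c z ∧ Supp (Kz J a) i z := by
  classical
  choose z hz using fun F => (h F).2.2
  refine ⟨z, hz, fun F hF => ?_⟩
  have h1 := hz F
  have h2 : indF F ≤ a := by
    have h3 := congrArg (coeff a) h1
    rw [prod_X_eq, coeff_monomial_mul', coeff_monomial, if_pos rfl] at h3
    by_contra hno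
    rw [if_neg hno] at h3
    exact hF h3.symm
  have h3 : c F = monomial (a - indF F) (z F) := by
    refine mul_left_cancel₀ (prod_X_ne_zero F) (h1.trans ?_)
    rw [prod_X_eq, monomial_mul, one_mul, add_tsub_cancel_of_le h2]
  refine ⟨⟨h2, ?_⟩, ?_⟩
  · have h4 := J.mul_mem_left (C (z F)⁻¹) (h F).1
    rwa [h3, C_mul_monomial, inv_mul_cancel₀ hF] at h4
  · by_contra hno
    rw [(h F).2.1 hno, eq_comm, monomial_eq_zero] at h3
    exact hF h3

theorem Supp.exists_rel {J : Ideal (MvPolynomial (Fin n) K)} {i : ℕ} {a : Fin n →₀ ℕ}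
    {z : Finset (Fin n) → K} (h : Supp (Kz J a) i z) :
    ∃ c, IsChain J i a c ∧ Rel a c z := by
  have h1 : Rel a (fun F => monomial (a - indF F) (z F)) z := by
    intro F
    by_cases hF : z F = 0
    · simp [hF]
    · rw [prod_X_eq, monomial_mul, one_mul, add_tsub_cancel_of_le (h F hF).1.1]
  refine ⟨_, fun F => ⟨?_, fun hF => ?_, _, h1 F⟩, h1⟩
  · by_cases hF : z F = 0
    · simp [hF]
    · have h4 := J.mul_mem_left (C (z F)) (h F hF).1.2
      rwa [C_mul_monomial, mul_one] at h4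
  · have : z F = 0 := by
      by_contra hno
      exact hF (h F hno).2
    simp [this]

theorem torNonzero_iff (J : Ideal (MvPolynomial (Fin n) K)) (i : ℕ) (a : Fin n →₀ ℕ) :
    TorNonzero J i a ↔ ∃ z : Finset (Fin n) → K, Supp (Kz J a) i z ∧ bd z = 0 ∧
      ¬ ∃ w, Supp (Kz J a) (i + 1) w ∧ bd w = z := by
  constructor
  · rintro ⟨c, hc, h0, hno⟩
    obtain ⟨z, hz, hs⟩ := hc.exists_rel
    refine ⟨z, hs, (hz.koszulD.eq_iff (rel_zero a)).mp h0, ?_⟩
    rintro ⟨w, hw, hwz⟩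
    obtain ⟨c', hc', hr⟩ := hw.exists_rel
    exact hno ⟨c', hc', (hr.koszulD.eq_iff hz).mpr hwz⟩
  · rintro ⟨z, hs, h0, hno⟩
    obtain ⟨c, hc, hz⟩ := hs.exists_rel
    refine ⟨c, hc, (hz.koszulD.eq_iff (rel_zero a)).mpr h0, ?_⟩
    rintro ⟨c', hc', hcc⟩
    obtain ⟨w, hr, hw⟩ := hc'.exists_rel
    exact hno ⟨w, hw, (hr.koszulD.eq_iff hz).mp hcc⟩

/-- Exponent vectors as integer vectors. -/
def toZ (a : Fin n →₀ ℕ) : Fin n → ℤ := fun j => a j

theorem toZ_add (a b : Fin n →₀ ℕ) : toZ (a + b) = toZ a + toZ b := by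
  ext j
  simp [toZ]

theorem toZ_le {a b : Fin n →₀ ℕ} : (∀ j, toZ a j ≤ toZ b j) ↔ a ≤ b := by
  simp [toZ, Finsupp.le_def]

theorem toZ_inj {a b : Fin n →₀ ℕ} (h : toZ a = toZ b) : a = b := by
  ext j
  simpa [toZ] using congrFun h j

theorem toZ_indF (F : Finset (Fin n)) : toZ (indF F) = ind F := by
  ext j
  simp [toZ, indF_apply, ind]

theorem exists_toZ {w : Fin n → ℤ} (h : ∀ j, 0 ≤ w j) : ∃ a, toZ a = w :=
  ⟨Finsupp.equivFunOnFinite.symm fun j => (w j).toNat, by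
    ext j
    simp [toZ, h j]⟩

theorem exists_gens_le {J : Ideal (MvPolynomial (Fin n) K)} {b : Fin n →₀ ℕ} (hb : b ∈ exps J) :
    ∃ a ∈ gens J, a ≤ b := by
  obtain ⟨a, h1, h2⟩ := exists_minimal_le_of_wellFoundedLT (fun b => b ∈ exps J) b hb
  exact ⟨a, h2, h1⟩

theorem IsPolymatroidal.eq_gens {I : Ideal (MvPolynomial (Fin n) K)} (hI : IsPolymatroidal I) :
    I = monIdeal K (gens I) := by
  ext f
  conv_lhs => rw [hI.monomial_ideal]
  rw [mem_monIdeal, mem_monIdeal]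
  refine forall₂_congr fun b _ => ⟨?_, ?_⟩
  · rintro ⟨a, ha, hab⟩
    obtain ⟨a', ha', h⟩ := exists_gens_le ha
    exact ⟨a', ha', h.trans hab⟩
  · rintro ⟨a, ha, hab⟩
    exact ⟨a, ha.prop, hab⟩

theorem IsPolymatroidal.exists_pm {I : Ideal (MvPolynomial (Fin n) K)} (hI : IsPolymatroidal I)
    (hne : (gens I).Nonempty) : ∃ P : PM (Fin n), ∀ u, u ∈ P.B ↔ ∃ a ∈ gens I, toZ a = u := by
  classical
  obtain ⟨u0, hu0⟩ := hne
  have hfin : (gens I).Finite := by
    refine (Finsupp.finite_of_degree_le (σ := Fin n) (∑ j, u0 j)).subset fun u hu => ?_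
    simp only [Set.mem_ofPred_eq, Finsupp.degree_eq_sum]
    exact (hI.same_degree u hu u0 hu0).le
  have hmem : ∀ u, u ∈ hfin.toFinset.image toZ ↔ ∃ a ∈ gens I, toZ a = u := by simp
  refine ⟨⟨hfin.toFinset.image toZ, ⟨_, (hmem _).mpr ⟨u0, hu0, rfl⟩⟩, ((∑ j, u0 j : ℕ) : ℤ),
    fun u hu => ?_, fun u hu j => ?_, fun u hu v hv i hi => ?_⟩, hmem⟩
  · obtain ⟨a, ha, rfl⟩ := (hmem _).mp hu
    rw [← hI.same_degree a ha u0 hu0]
    simp [toZ]
  · obtain ⟨a, ha, rfl⟩ := (hmem _).mp hu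
    simp [toZ]
  · obtain ⟨a, ha, rfl⟩ := (hmem _).mp hu
    obtain ⟨b, hb, rfl⟩ := (hmem _).mp hv
    have hi' : b i < a i := by simpa [toZ] using hi
    obtain ⟨j, hj, hex⟩ := hI.exchange a ha b hb i hi'
    have h1 : toZ (a - Finsupp.single i 1 + Finsupp.single j 1) =
        toZ a - Pi.single i 1 + Pi.single j 1 := by
      ext l
      simp only [toZ, Finsupp.add_apply, Finsupp.tsub_apply, Finsupp.single_apply, Pi.add_apply,
        Pi.sub_apply, Pi.single_apply, eq_comm (a := l)]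
      split_ifs with h1 h2 h2 <;> (try subst h1) <;> omega
    obtain ⟨c, hc, hle⟩ := exists_gens_le hex
    have h2 : ∑ l, toZ c l = ∑ l, toZ (a - Finsupp.single i 1 + Finsupp.single j 1) l := by
      rw [h1, sum_exch]
      have h3 := congrArg (Nat.cast : ℕ → ℤ) (hI.same_degree c hc a ha)
      push_cast at h3
      simp only [toZ, mem_univ, if_true]
      omega
    have h4 := (sum_eq_sum_iff_of_le (fun l _ => toZ_le.mpr hle l)).mp h2
    refine ⟨j, by simpa [toZ] using hj, (hmem _).mpr ⟨c, hc, ?_⟩⟩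
    rw [← h1]
    exact funext fun l => h4 l (mem_univ _)

section

variable {I : Ideal (MvPolynomial (Fin n) K)} {P : PM (Fin n)}

theorem pow_eq (hI : I = monIdeal K (gens I)) (hP : ∀ u, u ∈ P.B ↔ ∃ a ∈ gens I, toZ a = u)
    (k : ℕ) : I ^ k = monIdeal K {a | P.InPow k (toZ a)} := by
  induction k with
  | zero =>
    rw [pow_zero, Ideal.one_eq_top, eq_comm, eq_top_iff]
    intro f _
    exact mem_monIdeal.mpr fun b _ => ⟨0, P.inPow_zero.mpr (by ext; simp [toZ]), zero_le⟩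
  | succ k ih =>
    rw [pow_succ, ih]
    conv_lhs => rw [hI]
    rw [monIdeal_mul]
    congr 1
    ext c
    constructor
    · rintro ⟨a, ha, b, hb, rfl⟩
      simp only [Set.mem_ofPred_eq, toZ_add]
      exact P.inPow_add ha ((hP _).mpr ⟨b, hb, rfl⟩)
    · intro hc
      obtain ⟨u, hu, h1⟩ := P.inPow_succ hc
      obtain ⟨b, hb, rfl⟩ := (hP _).mp hu
      obtain ⟨a, ha⟩ := exists_toZ (P.inPow_nonneg h1)
      refine ⟨a, by simpa [ha] using h1, b, hb, toZ_inj ?_⟩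
      rw [toZ_add, ha, sub_add_cancel]

theorem kz_eq (hI : I = monIdeal K (gens I)) (hP : ∀ u, u ∈ P.B ↔ ∃ a ∈ gens I, toZ a = u)
    (k : ℕ) (a : Fin n →₀ ℕ) : Kz (I ^ k) a = P.Dl k (toZ a) := by
  ext F
  rw [Kz, pow_eq hI hP, mem_exps_monIdeal, PM.Dl, PM.Up, ← toZ_indF]
  constructor
  · rintro ⟨h1, b, hb, h2⟩
    refine ⟨toZ b, hb, fun j => ?_⟩
    have h3 := toZ_le.mpr ((le_tsub_iff_right h1).mp h2) j
    rw [toZ_add] at h3
    simp only [Pi.add_apply, Pi.sub_apply] at h3 ⊢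
    omega
  · rintro ⟨w, hw, h2⟩
    obtain ⟨b, rfl⟩ := exists_toZ (P.inPow_nonneg hw)
    have h3 : b + indF F ≤ a := by
      refine toZ_le.mp fun j => ?_
      have := h2 j
      rw [toZ_add]
      simp only [Pi.add_apply, Pi.sub_apply] at this ⊢
      omega
    have h4 : indF F ≤ a := le_add_self.trans h3
    exact ⟨h4, b, hw, (le_tsub_iff_right h4).mpr h3⟩

theorem HS_pow (hI : I = monIdeal K (gens I)) (hP : ∀ u, u ∈ P.B ↔ ∃ a ∈ gens I, toZ a = u)
    {i : ℕ} (hi : 0 < i) (k : ℕ) : HS i (I ^ k) = monIdeal K {a | P.HH k i (toZ a)} := by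
  unfold HS
  congr 1
  ext a
  simp only [Set.mem_ofPred_eq]
  rw [torNonzero_iff, kz_eq hI hP, homology_iff (P.isMat_dl k _), P.HH_iff hi]

theorem mem_HS_iff (hI : I = monIdeal K (gens I)) (hP : ∀ u, u ∈ P.B ↔ ∃ a ∈ gens I, toZ a = u)
    {i k : ℕ} (hi : 0 < i) (hk : i ≤ k) (f : MvPolynomial (Fin n) K) :
    f ∈ HS i (I ^ k) ↔ ∀ u ∈ gens I, monomial u 1 * f ∈ HS i (I ^ (k + 1)) := by
  classical
  rw [HS_pow hI hP hi, HS_pow hI hP hi]
  simp only [mem_monIdeal, mem_support_iff]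
  constructor
  · intro h u hu b hb
    rw [coeff_monomial_mul'] at hb
    have h1 : u ≤ b := by
      by_contra hno
      exact hb (if_neg hno)
    rw [if_pos h1, one_mul] at hb
    obtain ⟨a, ha, hab⟩ := h _ hb
    refine ⟨a + u, ?_, (le_tsub_iff_right h1).mp hab⟩
    simp only [Set.mem_ofPred_eq, toZ_add]
    exact P.HH_add ha ((hP _).mpr ⟨u, hu, rfl⟩)
  · intro h b hb
    obtain ⟨w, hw, hwb⟩ := P.HH_colon hk (w := toZ b) fun u hu => by
      obtain ⟨u, hu', rfl⟩ := (hP _).mp hu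
      obtain ⟨a, ha, hab⟩ := h u hu' (u + b) (by rwa [coeff_monomial_mul, one_mul])
      refine ⟨toZ a, ha, fun j => ?_⟩
      have h1 := toZ_le.mpr hab j
      rw [toZ_add, add_comm] at h1
      exact h1
    obtain ⟨a, rfl⟩ := exists_toZ (P.HH_nonneg hw)
    exact ⟨a, hw, toZ_le.mp hwb⟩

end

/-- If `H = H' : (g_1, …, g_m)` then `Ass H ⊆ Ass H'`. -/
theorem ass_subset {R : Type*} [CommRing R] [IsNoetherianRing R] {H H' : Ideal R} {G : Finset R}
    (h : ∀ f, f ∈ H ↔ ∀ g ∈ G, g * f ∈ H') :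
    associatedPrimes R (R ⧸ H) ⊆ associatedPrimes R (R ⧸ H') := by
  intro p hp
  obtain ⟨hprime, x, hx⟩ := isAssociatedPrime_iff.mp hp
  obtain ⟨x, rfl⟩ := Ideal.Quotient.mk_surjective x
  have hmem : ∀ (J : Ideal R) (y r : R),
      r ∈ Submodule.colon (⊥ : Submodule R (R ⧸ J)) {Ideal.Quotient.mk J y} ↔ r * y ∈ J := by
    intro J y r
    rw [Submodule.mem_colon_singleton, Submodule.mem_bot, ← Ideal.Quotient.eq_zero_iff_mem]
    rfl
  have h1 : G.inf (fun g => Submodule.colon (⊥ : Submodule R (R ⧸ H'))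
      {Ideal.Quotient.mk H' (g * x)}) ≤ p := by
    intro r hr
    rw [hx, hmem, h]
    intro g hg
    have h2 := (hmem _ _ _).mp ((Finset.inf_le (f := fun g => Submodule.colon
      (⊥ : Submodule R (R ⧸ H')) {Ideal.Quotient.mk H' (g * x)}) hg) hr)
    rwa [mul_left_comm] at h2
  obtain ⟨g, hg, h2⟩ := (Ideal.IsPrime.inf_le' hprime).mp h1
  refine isAssociatedPrime_iff.mpr ⟨hprime, Ideal.Quotient.mk H' (g * x), le_antisymm ?_ h2⟩
  intro r hr
  rw [hx, hmem, h] at hr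
  rw [hmem, mul_left_comm]
  exact hr g hg

theorem ass_HS_subset {I : Ideal (MvPolynomial (Fin n) K)} (hI : IsPolymatroidal I) {i k : ℕ}
    (hi : 0 < i) (hk : i ≤ k) :
    associatedPrimes (MvPolynomial (Fin n) K) (MvPolynomial (Fin n) K ⧸ HS i (I ^ k)) ⊆
      associatedPrimes (MvPolynomial (Fin n) K) (MvPolynomial (Fin n) K ⧸ HS i (I ^ (k + 1))) := by
  classical
  rcases (gens I).eq_empty_or_nonempty with h0 | hne
  · have h1 : I = 0 := by
      rw [hI.eq_gens, h0]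
      simp [monIdeal]
    rw [h1, zero_pow (by omega), zero_pow (by omega)]
  · obtain ⟨P, hP⟩ := hI.exists_pm hne
    have hfin : (gens I).Finite := by
      refine Set.Finite.of_finite_image (f := toZ) (P.B.finite_toSet.subset ?_)
        fun a _ b _ => toZ_inj
      rintro _ ⟨a, ha, rfl⟩
      exact (hP _).mpr ⟨a, ha, rfl⟩
    refine ass_subset (G := hfin.toFinset.image fun u => monomial u 1) fun f => ?_
    rw [mem_HS_iff hI.eq_gens hP hi hk]
    simp

end Pool.Agent.P.MP_be6357_al
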