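import Mathlib

namespace Pool.Agent.P.MP_be6357_al

open Finset

variable {V : Type} [Fintype V] [LinearOrder V] {K : Type*} [Field K]

/-- The sign of `j` relative to `G`. -/
def sg (K : Type*) [Field K] (j : V) (G : Finset V) : K := (-1) ^ (G.filter (· < j)).card

/-- The simplicial boundary of a chain. -/
def bd (c : Finset V → K) : Finset V → K := fun G => ∑ j ∈ Gᶜ, sg K j G * c (insert j G)

/-- The cone over a chain. -/
def cone (e : V) (c : Finset V → K) : Finset V → K :=
  fun F => if e ∈ F then sg K e (F.erase e) * c (F.erase e) else 0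

omit [Fintype V] in
theorem sg_mul_self (j : V) (G : Finset V) : sg K j G * sg K j G = 1 := by
  rw [sg, ← mul_pow]
  simp

omit [Fintype V] in
theorem sg_ne_zero (j : V) (G : Finset V) : sg K j G ≠ 0 := by
  intro h
  have := sg_mul_self (K := K) j G
  rw [h] at this
  simp at this

omit [Fintype V] in
theorem sg_insert {j e : V} {G : Finset V} (he : e ∉ G) :
    sg K j (insert e G) = (if e < j then -1 else 1) * sg K j G := by
  unfold sg
  rw [filter_insert]
  split_ifs with h
  · rw [card_insert_of_notMem (fun h' => he (mem_filter.mp h').1), pow_succ]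
    ring
  · ring

theorem bd_add (c c' : Finset V → K) : bd (c + c') = bd c + bd c' := by
  ext G
  simp [bd, mul_add, sum_add_distrib]

theorem bd_sub (c c' : Finset V → K) : bd (c - c') = bd c - bd c' := by
  ext G
  simp [bd, mul_sub, sum_sub_distrib]

theorem bd_zero : bd (0 : Finset V → K) = 0 := by
  ext G
  simp [bd]

omit [Fintype V] in
theorem cone_zero (e : V) : cone e (0 : Finset V → K) = 0 := by
  ext G
  simp [cone]

theorem bd_cone (e : V) (c : Finset V → K) : bd (cone e c) + cone e (bd c) = c := by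
  ext G
  simp only [Pi.add_apply]
  by_cases he : e ∈ G
  · obtain ⟨G', hG', rfl⟩ : ∃ G', e ∉ G' ∧ G = insert e G' :=
      ⟨G.erase e, notMem_erase _ _, (insert_erase he).symm⟩
    have h1 : G'ᶜ = insert e (insert e G')ᶜ := by
      ext j
      by_cases hj : j = e <;> simp [hj, hG']
    simp only [bd, cone, mem_insert_self, if_true, erase_insert hG']
    rw [h1, sum_insert (by simp), mul_add, ← mul_assoc, sg_mul_self, one_mul, mul_sum,
      add_left_comm, ← sum_add_distrib]
    rw [sum_eq_zero, add_zero]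
    intro j hj
    simp only [mem_compl, mem_insert, not_or] at hj
    have h2 : (insert j (insert e G')).erase e = insert j G' := by
      rw [insert_comm, erase_insert]
      simp [hG', Ne.symm hj.1]
    rw [if_pos (by simp), h2, sg_insert hG', sg_insert hj.2]
    rcases lt_or_gt_of_ne hj.1 with h | h
    · rw [if_neg (not_lt.mpr h.le), if_pos h]
      ring
    · rw [if_pos h, if_neg (not_lt.mpr h.le)]
      ring
  · simp only [bd, cone, if_neg he, add_zero]
    rw [sum_eq_single e]
    · rw [if_pos (mem_insert_self _ _), erase_insert he, ← mul_assoc, sg_mul_self, one_mul]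
    · intro j _ hj
      rw [if_neg (by simp [he, Ne.symm hj]), mul_zero]
    · intro h
      exact absurd (mem_compl.mpr he) h

/-- The chain is supported on members of the family of the given size. -/
def Supp (D : Finset V → Prop) (i : ℕ) (c : Finset V → K) : Prop :=
  ∀ F, c F ≠ 0 → D F ∧ F.card = i

/-- Independent sets of a matroid (or the empty family). -/
structure IsMat (D : Finset V → Prop) : Prop where
  down : ∀ F G, D G → F ⊆ G → D F
  aug : ∀ F G, D F → D G → F.card < G.card → ∃ e ∈ G, e ∉ F ∧ D (insert e F)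

omit [Fintype V] in
theorem IsMat.del {D : Finset V → Prop} (h : IsMat D) (e : V) :
    IsMat (fun F => e ∉ F ∧ D F) where
  down := fun F G hG hFG => ⟨fun he => hG.1 (hFG he), h.down F G hG.2 hFG⟩
  aug := fun F G hF hG hlt => by
    obtain ⟨x, hx, hxF, hD⟩ := h.aug F G hF.2 hG.2 hlt
    refine ⟨x, hx, hxF, ?_, hD⟩
    rw [mem_insert, not_or]
    exact ⟨fun hh => hG.1 (hh ▸ hx), hF.1⟩

omit [Fintype V] in
theorem IsMat.link {D : Finset V → Prop} (h : IsMat D) (e : V) :
    IsMat (fun F => e ∉ F ∧ D (insert e F)) where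
  down := fun F G hG hFG =>
    ⟨fun he => hG.1 (hFG he), h.down _ _ hG.2 (insert_subset_insert e hFG)⟩
  aug := fun F G hF hG hlt => by
    obtain ⟨x, hx, hxF, hD⟩ := h.aug _ _ hF.2 hG.2 (by
      rwa [card_insert_of_notMem hF.1, card_insert_of_notMem hG.1, Nat.add_lt_add_iff_right])
    rw [mem_insert, not_or] at hxF
    refine ⟨x, (mem_insert.mp hx).resolve_left hxF.1, hxF.2, ?_, ?_⟩
    · rw [mem_insert, not_or]
      exact ⟨Ne.symm hxF.1, hF.1⟩
    · rwa [insert_comm]

omit [Fintype V] in
theorem IsMat.aug_upto {D : Finset V → Prop} (h : IsMat D) {G : Finset V} (hG : D G) (m : ℕ) :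
    ∀ F, D F → F.card + m = G.card → ∃ F', D F' ∧ F ⊆ F' ∧ F' ⊆ F ∪ G ∧ F'.card = G.card := by
  induction m with
  | zero => exact fun F hF hc => ⟨F, hF, Subset.rfl, subset_union_left, hc⟩
  | succ m ih =>
    intro F hF hc
    obtain ⟨x, hx, hxF, hD⟩ := h.aug F G hF hG (by omega)
    obtain ⟨F', h1, h2, h3, h4⟩ := ih _ hD (by rw [card_insert_of_notMem hxF]; omega)
    refine ⟨F', h1, (subset_insert _ _).trans h2, h3.trans ?_, h4⟩
    intro y hy
    simp only [mem_union, mem_insert] at hy ⊢
    rcases hy with (rfl | hy) | hy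
    · exact Or.inr hx
    · exact Or.inl hy
    · exact Or.inr hy

omit [Fintype V] [LinearOrder V] in
theorem Supp.add {D : Finset V → Prop} {i : ℕ} {c c' : Finset V → K} (h : Supp D i c)
    (h' : Supp D i c') : Supp D i (c + c') := by
  intro F hF
  by_cases h0 : c F = 0
  · exact h' F (by simpa [h0] using hF)
  · exact h F h0

omit [Fintype V] [LinearOrder V] in
theorem Supp.sub {D : Finset V → Prop} {i : ℕ} {c c' : Finset V → K} (h : Supp D i c)
    (h' : Supp D i c') : Supp D i (c - c') := by
  intro F hF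
  by_cases h0 : c F = 0
  · exact h' F (by simpa [h0] using hF)
  · exact h F h0

omit [Fintype V] [LinearOrder V] in
theorem Supp.mono {D D' : Finset V → Prop} {i : ℕ} {c : Finset V → K} (h : Supp D i c)
    (hD : ∀ F, D F → D' F) : Supp D' i c :=
  fun F hF => ⟨hD F (h F hF).1, (h F hF).2⟩

omit [Fintype V] in
theorem Supp.cone {D : Finset V → Prop} {i : ℕ} {c : Finset V → K} {e : V}
    (h : Supp (fun F => e ∉ F → D (insert e F)) i c) : Supp D (i + 1) (cone e c) := by
  intro F hF
  unfold MP_be6357_al.cone at hF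
  by_cases he : e ∈ F
  · rw [if_pos he] at hF
    obtain ⟨h1, h2⟩ := h _ (right_ne_zero_of_mul hF)
    have h3 := h1 (notMem_erase _ _)
    rw [insert_erase he] at h3
    refine ⟨h3, ?_⟩
    rw [← h2, card_erase_add_one he]
  · rw [if_neg he] at hF
    exact absurd rfl hF

/-- Below the rank, every cycle of a matroid complex is a boundary. -/
theorem exists_bd (E : Finset V) : ∀ (D : Finset V → Prop), IsMat D → (∀ F, D F → F ⊆ E) →
    ∀ (i : ℕ) (c : Finset V → K), Supp D i c → bd c = 0 → (∃ G, D G ∧ i < G.card) →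
    ∃ w : Finset V → K, Supp D (i + 1) w ∧ bd w = c := by
  induction E using Finset.induction_on with
  | empty =>
    rintro D _ hE i c _ _ ⟨G, hG, hi⟩
    rw [subset_empty.mp (hE G hG)] at hi
    simp at hi
  | insert e E he ih =>
    rintro D hD hE i c hc hbd ⟨G, hG, hi⟩
    let c0 : Finset V → K := fun F => if e ∈ F then 0 else c F
    let c1 : Finset V → K := fun F => if e ∈ F then 0 else sg K e F * c (insert e F)
    have hsplit : c = cone e c1 + c0 := by
      ext F
      simp only [cone, c0, c1, Pi.add_apply]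
      by_cases h : e ∈ F
      · simp only [if_pos h, if_neg (notMem_erase e F), insert_erase h, ← mul_assoc, sg_mul_self]
        simp
      · simp [h]
    have h1 : c1 - cone e (bd c1) + bd c0 = 0 := by
      rw [← hbd, hsplit, bd_add, ← bd_cone e c1]
      nth_rewrite 1 [← bd_cone e c1]
      rw [bd_cone e c1]
      abel
    have hb1 : bd c1 = 0 := by
      ext F
      by_cases h : e ∈ F
      · simp [bd, c1, h]
      · have h2 := congrFun h1 (insert e F)
        have h3 : bd c0 (insert e F) = 0 := by simp [bd, c0]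
        have h4 : c1 (insert e F) = 0 := by simp [c1]
        simp only [Pi.add_apply, Pi.sub_apply, h3, h4, cone, mem_insert_self, if_true,
          erase_insert h, Pi.zero_apply] at h2
        have h5 : sg K e F * bd c1 F = 0 := by linear_combination -h2
        exact (mul_eq_zero.mp h5).resolve_left (sg_ne_zero _ _)
    rw [hb1, cone_zero, sub_zero] at h1
    have hsub : ∀ F, e ∉ F → F ⊆ insert e E → F ⊆ E := fun F hF h j hj =>
      (mem_insert.mp (h hj)).resolve_left (fun hh => hF (hh ▸ hj))
    obtain ⟨w1, hw1, hbw1⟩ : ∃ w1 : Finset V → K,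
        Supp (fun F => e ∉ F ∧ D (insert e F)) i w1 ∧ bd w1 = c1 := by
      by_cases h0 : c1 = 0
      · exact ⟨0, fun F hF => absurd rfl hF, by rw [h0, bd_zero]⟩
      have hs : ∀ F, c1 F ≠ 0 → e ∉ F ∧ D (insert e F) ∧ F.card + 1 = i := by
        intro F hF
        by_cases h : e ∈ F
        · simp [c1, h] at hF
        · simp only [c1, if_neg h] at hF
          obtain ⟨h2, h3⟩ := hc _ (right_ne_zero_of_mul hF)
          exact ⟨h, h2, by rwa [card_insert_of_notMem h] at h3⟩
      obtain ⟨F0, hF0⟩ := Function.ne_iff.mp h0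
      obtain ⟨k1, k2, k3⟩ := hs F0 hF0
      obtain ⟨x, -, hx, k4⟩ := (hD.aug _ G k2 hG (by rw [card_insert_of_notMem k1]; omega))
      rw [mem_insert, not_or] at hx
      rw [← k3]
      refine ih _ (hD.link e)
        (fun F hF => hsub F hF.1 ((subset_insert _ _).trans (hE _ hF.2))) F0.card c1
        (fun F hF => ⟨⟨(hs F hF).1, (hs F hF).2.1⟩, by have := (hs F hF).2.2; omega⟩) hb1
        ⟨insert x F0, ⟨?_, by rwa [insert_comm]⟩, by rw [card_insert_of_notMem hx.2]; omega⟩
      rw [mem_insert, not_or]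
      exact ⟨Ne.symm hx.1, k1⟩
    have hc' : Supp (fun F => e ∉ F ∧ D F) i (c0 + w1) := by
      apply Supp.add
      · intro F hF
        by_cases h : e ∈ F
        · simp [c0, h] at hF
        · simp only [c0, if_neg h] at hF
          exact ⟨⟨h, (hc F hF).1⟩, (hc F hF).2⟩
      · exact hw1.mono fun F hF => ⟨hF.1, hD.down _ _ hF.2 (subset_insert _ _)⟩
    have hbc' : bd (c0 + w1) = 0 := by rw [bd_add, hbw1, add_comm, h1]
    obtain ⟨w', hw', hbw'⟩ : ∃ w' : Finset V → K, Supp D (i + 1) w' ∧ bd w' = c0 + w1 := by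
      by_cases hex : ∃ G', (e ∉ G' ∧ D G') ∧ i < G'.card
      · obtain ⟨w', k1, k2⟩ := ih _ (hD.del e) (fun F hF => hsub F hF.1 (hE _ hF.2)) i _ hc'
          hbc' hex
        exact ⟨w', k1.mono fun F hF => hF.2, k2⟩
      · refine ⟨cone e (c0 + w1), Supp.cone fun F hF => ⟨fun _ => ?_, (hc' F hF).2⟩, ?_⟩
        · obtain ⟨⟨k1, k2⟩, k3⟩ := hc' F hF
          obtain ⟨x, -, hx, k4⟩ := hD.aug F G k2 hG (by omega)
          by_cases hxe : x = e
          · rwa [← hxe]
          · exfalso
            refine hex ⟨insert x F, ⟨?_, k4⟩, by rw [card_insert_of_notMem hx]; omega⟩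
            rw [mem_insert, not_or]
            exact ⟨Ne.symm hxe, k1⟩
        · have := bd_cone e (c0 + w1)
          rwa [hbc', cone_zero, add_zero] at this
    refine ⟨w' - cone e w1, hw'.sub (Supp.cone (hw1.mono fun F hF _ => hF.2)), ?_⟩
    have := bd_cone e w1
    rw [hbw1] at this
    rw [bd_sub, hbw', hsplit]
    nth_rewrite 1 [← this]
    abel

/-- A coloop-free matroid complex has a nonzero cycle in top degree. -/
theorem exists_cycle (i : ℕ) : ∀ (D : Finset V → Prop), IsMat D → (∃ F, D F ∧ F.card = i) →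
    (∀ j, ∃ F, D F ∧ F.card = i ∧ j ∉ F) →
    ∃ z : Finset V → K, z ≠ 0 ∧ Supp D i z ∧ bd z = 0 := by
  induction i with
  | zero =>
    rintro D hD ⟨F, hF, hF0⟩ -
    rw [card_eq_zero] at hF0
    subst hF0
    refine ⟨fun F => if F = ∅ then 1 else 0, ?_, ?_, ?_⟩
    · intro h
      simpa using congrFun h ∅
    · intro G hG
      by_cases h : G = ∅
      · subst h
        exact ⟨hF, rfl⟩
      · simp [h] at hG
    · ext G
      simp [bd]
  | succ i ih =>
    rintro D hD ⟨F0, hF0, hc0⟩ hj
    obtain ⟨e, he⟩ : F0.Nonempty := card_pos.mp (by omega)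
    have hlink : (e ∉ F0.erase e ∧ D (insert e (F0.erase e))) ∧ (F0.erase e).card = i :=
      ⟨⟨notMem_erase _ _, by rwa [insert_erase he]⟩, by rw [card_erase_of_mem he]; omega⟩
    obtain ⟨z, hz0, hz, hbz⟩ := ih _ (hD.link e) ⟨_, hlink⟩ (fun j => by
      by_cases hje : j = e
      · exact ⟨_, hlink.1, hlink.2, hje ▸ notMem_erase _ _⟩
      obtain ⟨F, k1, k2, k3⟩ := hj j
      obtain ⟨F', l1, l2, l3, l4⟩ := hD.aug_upto k1 i {e}
        (hD.down _ _ hF0 (singleton_subset_iff.mpr he)) (by rw [card_singleton]; omega)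
      have he' : e ∈ F' := l2 (mem_singleton_self _)
      refine ⟨F'.erase e, ⟨notMem_erase _ _, by rwa [insert_erase he']⟩,
        by rw [card_erase_of_mem he']; omega, fun h => ?_⟩
      rcases mem_union.mp (l3 (mem_of_mem_erase h)) with h' | h'
      · exact hje (mem_singleton.mp h')
      · exact k3 h')
    obtain ⟨G, k1, k2, k3⟩ := hj e
    obtain ⟨w, hw, hbw⟩ := exists_bd univ _ (hD.del e) (fun F _ => subset_univ F) i z
      (hz.mono fun F hF => ⟨hF.1, hD.down _ _ hF.2 (subset_insert _ _)⟩) hbz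
      ⟨G, ⟨k3, k1⟩, by omega⟩
    refine ⟨cone e z - w, ?_, (Supp.cone (hz.mono fun F hF _ => hF.2)).sub
      (hw.mono fun F hF => hF.2), ?_⟩
    · obtain ⟨F, hF⟩ := Function.ne_iff.mp hz0
      have h1 := (hz F hF).1.1
      intro h
      have h2 := congrFun h (insert e F)
      have h3 : w (insert e F) = 0 := by
        by_contra h4
        exact (hw _ h4).1.1 (mem_insert_self _ _)
      simp only [Pi.sub_apply, h3, cone, mem_insert_self, if_true, erase_insert h1, sub_zero,
        Pi.zero_apply] at h2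
      exact hF ((mul_eq_zero.mp h2).resolve_left (sg_ne_zero _ _))
    · have := bd_cone e z
      rw [hbz, cone_zero, add_zero] at this
      rw [bd_sub, this, hbw, sub_self]

/-- The homology of a matroid complex in size `i` is nonzero exactly when the rank is `i` and
there is no coloop. -/
theorem homology_iff {D : Finset V → Prop} (hD : IsMat D) (i : ℕ) :
    (∃ z : Finset V → K, Supp D i z ∧ bd z = 0 ∧
      ¬ ∃ w : Finset V → K, Supp D (i + 1) w ∧ bd w = z) ↔
    ((∀ G, D G → G.card ≤ i) ∧ (∃ F, D F ∧ F.card = i) ∧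
      ∀ j, ∃ F, D F ∧ F.card = i ∧ j ∉ F) := by
  constructor
  · rintro ⟨z, hz, hbz, hno⟩
    have hz0 : z ≠ 0 := by
      rintro rfl
      exact hno ⟨0, fun F hF => absurd rfl hF, bd_zero⟩
    refine ⟨fun G hG => ?_, ?_, fun j => ?_⟩
    · by_contra h
      exact hno (exists_bd univ D hD (fun F _ => subset_univ F) i z hz hbz ⟨G, hG, by omega⟩)
    · obtain ⟨F, hF⟩ := Function.ne_iff.mp hz0
      exact ⟨F, hz F hF⟩
    · by_contra h
      push Not at h
      apply hno
      refine ⟨cone j z, Supp.cone fun F hF => ⟨fun hj => ?_, (hz F hF).2⟩, ?_⟩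
      · exact absurd (h F (hz F hF).1 (hz F hF).2) hj
      · have := bd_cone j z
        rwa [hbz, cone_zero, add_zero] at this
  · rintro ⟨h1, h2, h3⟩
    obtain ⟨z, hz0, hz, hbz⟩ := exists_cycle (K := K) i D hD h2 h3
    refine ⟨z, hz, hbz, ?_⟩
    rintro ⟨w, hw, rfl⟩
    apply hz0
    have : w = 0 := by
      ext F
      by_contra h
      have := h1 F (hw F h).1
      have := (hw F h).2
      omega
    rw [this, bd_zero]

end Pool.Agent.P.MP_be6357_al
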