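import Mathlib

namespace Pool.Agent.P.MP_be6357_al

open Finset

variable {V : Type} [Fintype V] [DecidableEq V]

/-- Frank's discrete sandwich theorem, affine form. -/
theorem sandwich_aux (E : Finset V) : ∀ (p b : Finset V → ℤ),
    (∀ S T, p S + p T ≤ p (S ∪ T) + p (S ∩ T)) →
    (∀ S T, b (S ∪ T) + b (S ∩ T) ≤ b S + b T) → (∀ S, p S ≤ b S) →
    ∃ (c : ℤ) (x : V → ℤ), ∀ S ⊆ E, p S ≤ c + ∑ j ∈ S, x j ∧ c + ∑ j ∈ S, x j ≤ b S := by
  induction E using Finset.induction_on with
  | empty =>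
    intro p b _ _ hpb
    refine ⟨p ∅, 0, fun S hS => ?_⟩
    rw [Finset.subset_empty.mp hS]
    simpa using hpb ∅
  | insert s E hs ih =>
    intro p b hp hb hpb
    obtain ⟨X, -, hX⟩ := Finset.exists_min_image (univ : Finset (Finset V))
      (fun X => b (insert s X) - p (X.erase s)) ⟨∅, mem_univ _⟩
    set α := b (insert s X) - p (X.erase s) with hα
    have e1 : ∀ S T : Finset V, S.erase s ∪ T.erase s = (S ∪ T).erase s := by
      intro S T; ext; simp; tauto
    have e2 : ∀ S T : Finset V, S.erase s ∩ T.erase s = (S ∩ T).erase s := by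
      intro S T; ext; simp; tauto
    have e3 : ∀ S T : Finset V, insert s S ∪ T.erase s = insert s (S ∪ T) := by
      intro S T; ext; simp; tauto
    have e4 : ∀ S T : Finset V, insert s S ∩ T.erase s = (S ∩ T).erase s := by
      intro S T; ext; simp; tauto
    have e5 : ∀ S T : Finset V, insert s S ∪ insert s T = insert s (S ∪ T) := by
      intro S T; ext; simp
    have e6 : ∀ S T : Finset V, insert s S ∩ insert s T = insert s (S ∩ T) := by
      intro S T; ext; simp; tauto
    obtain ⟨c, x, hx⟩ := ih (fun S => max (p (S.erase s)) (p (insert s S) - α))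
      (fun S => min (b (S.erase s)) (b (insert s S) - α))
      (fun S T => by
        have h1 := hp (S.erase s) (T.erase s)
        have h2 := hp (insert s S) (T.erase s)
        have h3 := hp (insert s T) (S.erase s)
        have h4 := hp (insert s S) (insert s T)
        rw [e1, e2] at h1
        rw [e3, e4] at h2
        rw [e3, e4, union_comm T S, inter_comm T S] at h3
        rw [e5, e6] at h4
        omega)
      (fun S T => by
        have h1 := hb (S.erase s) (T.erase s)
        have h2 := hb (insert s S) (T.erase s)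
        have h3 := hb (insert s T) (S.erase s)
        have h4 := hb (insert s S) (insert s T)
        rw [e1, e2] at h1
        rw [e3, e4] at h2
        rw [e3, e4, union_comm T S, inter_comm T S] at h3
        rw [e5, e6] at h4
        omega)
      (fun S => by
        have h1 := hpb (S.erase s)
        have h2 := hpb (insert s S)
        have h3 := hX S (mem_univ _)
        have h4 := hp (insert s S) (X.erase s)
        have h5 := hb (insert s X) (S.erase s)
        have h6 := hpb (insert s (S ∪ X))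
        have h7 := hpb ((S ∩ X).erase s)
        rw [e3, e4] at h4
        rw [e3, e4, union_comm X S, inter_comm X S] at h5
        omega)
    refine ⟨c, Function.update x s α, fun S hS => ?_⟩
    have h1 : S.erase s ⊆ E := by
      intro j hj
      rw [mem_erase] at hj
      exact (mem_insert.mp (hS hj.2)).resolve_left hj.1
    have h2 := hx _ h1
    simp only [erase_idem] at h2
    have h3 : ∑ j ∈ S.erase s, Function.update x s α j = ∑ j ∈ S.erase s, x j :=
      sum_congr rfl fun j hj => Function.update_of_ne (mem_erase.mp hj).1 _ _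
    by_cases h : s ∈ S
    · rw [insert_erase h] at h2
      rw [← add_sum_erase S _ h, h3, Function.update_self]
      omega
    · rw [erase_eq_of_notMem h] at h2 h3
      rw [h3]
      omega

/-- Frank's discrete sandwich theorem. -/
theorem sandwich (p b : Finset V → ℤ) (hp : ∀ S T, p S + p T ≤ p (S ∪ T) + p (S ∩ T))
    (hb : ∀ S T, b (S ∪ T) + b (S ∩ T) ≤ b S + b T) (hpb : ∀ S, p S ≤ b S)
    (hp0 : p ∅ = 0) (hb0 : b ∅ = 0) :
    ∃ x : V → ℤ, ∀ S, p S ≤ ∑ j ∈ S, x j ∧ ∑ j ∈ S, x j ≤ b S := by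
  obtain ⟨c, x, hx⟩ := sandwich_aux univ p b hp hb hpb
  have h0 := hx ∅ (empty_subset _)
  rw [sum_empty] at h0
  have hc : c = 0 := by omega
  refine ⟨x, fun S => ?_⟩
  have := hx S (subset_univ _)
  rwa [hc, zero_add] at this

/-- The set of bases of a discrete polymatroid. -/
structure PM (V : Type) [Fintype V] [DecidableEq V] where
  B : Finset (V → ℤ)
  ne : B.Nonempty
  d : ℤ
  deg : ∀ u ∈ B, ∑ j, u j = d
  nonneg : ∀ u ∈ B, ∀ j, 0 ≤ u j
  exch : ∀ u ∈ B, ∀ v ∈ B, ∀ i, v i < u i →
    ∃ j, u j < v j ∧ u - Pi.single i 1 + Pi.single j 1 ∈ B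

omit [Fintype V] in
theorem sum_exch (u : V → ℤ) (i j : V) (S : Finset V) :
    ∑ l ∈ S, (u - Pi.single i 1 + Pi.single j 1 : V → ℤ) l =
      ∑ l ∈ S, u l - (if i ∈ S then 1 else 0) + (if j ∈ S then 1 else 0) := by
  simp [sum_add_distrib, sum_sub_distrib, Pi.single_apply]

/-- The distance in the sum norm. -/
def dist1 (u v : V → ℤ) : ℤ := ∑ l, |u l - v l|

omit [DecidableEq V] in
theorem dist1_comm (u v : V → ℤ) : dist1 u v = dist1 v u :=
  sum_congr rfl fun _ _ => abs_sub_comm _ _

theorem dist1_exch {u v : V → ℤ} {i j : V} (hi : v i < u i) (hj : u j < v j) :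
    dist1 (u - Pi.single i 1 + Pi.single j 1) v < dist1 u v := by
  have hij : i ≠ j := by
    rintro rfl
    omega
  apply sum_lt_sum
  · intro l _
    simp only [Pi.add_apply, Pi.sub_apply, Pi.single_apply]
    by_cases h1 : l = i
    · subst h1
      simp only [if_true, if_neg hij]
      rw [abs_of_nonneg (by omega), abs_of_nonneg (by omega)]
      omega
    · by_cases h2 : l = j
      · subst h2
        simp only [if_true, if_neg h1]
        rw [abs_of_nonpos (by omega), abs_of_nonpos (by omega)]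
        omega
      · simp [h1, h2]
  · refine ⟨i, mem_univ _, ?_⟩
    simp only [Pi.add_apply, Pi.sub_apply, Pi.single_apply, if_true, if_neg hij]
    rw [abs_of_nonneg (by omega), abs_of_nonneg (by omega)]
    omega

namespace PM

variable (P : PM V)

/-- The rank function. -/
def rk (S : Finset V) : ℤ := P.B.sup' P.ne (fun u => ∑ j ∈ S, u j)

theorem le_rk {u : V → ℤ} (hu : u ∈ P.B) (S : Finset V) : ∑ j ∈ S, u j ≤ P.rk S :=
  Finset.le_sup' (fun u : V → ℤ => ∑ j ∈ S, u j) hu

theorem exists_eq_rk (S : Finset V) : ∃ u ∈ P.B, ∑ j ∈ S, u j = P.rk S := by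
  obtain ⟨u, hu, h⟩ := Finset.exists_mem_eq_sup' P.ne (fun u : V → ℤ => ∑ j ∈ S, u j)
  exact ⟨u, hu, h.symm⟩

theorem rk_empty : P.rk ∅ = 0 := by
  obtain ⟨u, -, h⟩ := P.exists_eq_rk ∅
  rw [← h, sum_empty]

theorem rk_univ : P.rk univ = P.d := by
  obtain ⟨u, hu, h⟩ := P.exists_eq_rk univ
  rw [← h, P.deg u hu]

theorem rk_nonneg (S : Finset V) : 0 ≤ P.rk S := by
  obtain ⟨u, hu, h⟩ := P.exists_eq_rk S
  rw [← h]
  exact sum_nonneg fun j _ => P.nonneg u hu j

theorem rk_le (S : Finset V) : P.rk S ≤ P.d := by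
  obtain ⟨u, hu, h⟩ := P.exists_eq_rk S
  rw [← h, ← P.deg u hu]
  exact sum_le_sum_of_subset_of_nonneg (subset_univ _) fun j _ _ => P.nonneg u hu j

theorem exists_both {X Y : Finset V} (hXY : X ⊆ Y) :
    ∃ v ∈ P.B, ∑ j ∈ X, v j = P.rk X ∧ ∑ j ∈ Y, v j = P.rk Y := by
  obtain ⟨u0, hu0, h0⟩ := P.exists_eq_rk Y
  obtain ⟨v0, hv0, h0'⟩ := P.exists_eq_rk X
  obtain ⟨⟨u, v⟩, huv, hmin⟩ := Finset.exists_min_image
    ((P.B ×ˢ P.B).filter fun z => ∑ j ∈ Y, z.1 j = P.rk Y ∧ ∑ j ∈ X, z.2 j = P.rk X)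
    (fun z => dist1 z.1 z.2) ⟨(u0, v0), by simp [hu0, hv0, h0, h0']⟩
  simp only [mem_filter, mem_product] at huv hmin
  obtain ⟨⟨hu, hv⟩, huY, hvX⟩ := huv
  have h1 : ∀ i, i ∉ Y → u i = v i := by
    intro i hi
    rcases lt_trichotomy (u i) (v i) with h | h | h
    · exfalso
      obtain ⟨j, hj, hB⟩ := P.exch v hv u hu i h
      have h2 := P.le_rk hB X
      have h3 := sum_exch v i j X
      rw [if_neg (fun h => hi (hXY h))] at h3
      have h4 := hmin (u, _) ⟨⟨hu, hB⟩, huY, by
        apply le_antisymm h2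
        rw [h3]
        split_ifs <;> omega⟩
      have h5 := dist1_exch h hj
      simp only at h4
      rw [dist1_comm u, dist1_comm u] at h4
      omega
    · exact h
    · exfalso
      obtain ⟨j, hj, hB⟩ := P.exch u hu v hv i h
      have h2 := P.le_rk hB Y
      have h3 := sum_exch u i j Y
      rw [if_neg hi] at h3
      have h4 := hmin (_, v) ⟨⟨hB, hv⟩, by
        apply le_antisymm h2
        rw [h3]
        split_ifs <;> omega, hvX⟩
      have h5 := dist1_exch h hj
      simp only at h4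
      omega
  refine ⟨v, hv, hvX, ?_⟩
  have h2 := sum_add_sum_compl Y u
  have h3 := sum_add_sum_compl Y v
  have h4 : ∑ j ∈ Yᶜ, u j = ∑ j ∈ Yᶜ, v j := sum_congr rfl fun j hj => h1 j (mem_compl.mp hj)
  rw [P.deg u hu] at h2
  rw [P.deg v hv] at h3
  omega

theorem rk_submod (S T : Finset V) : P.rk (S ∪ T) + P.rk (S ∩ T) ≤ P.rk S + P.rk T := by
  obtain ⟨v, hv, h1, h2⟩ := P.exists_both (inter_subset_union (s := S) (t := T))
  have h3 := sum_union_inter (s₁ := S) (s₂ := T) (f := v)
  have h4 := P.le_rk hv S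
  have h5 := P.le_rk hv T
  omega

theorem exists_improve {u : V → ℤ} (hu : u ∈ P.B) {T : Finset V} (h : ∑ j ∈ T, u j < P.rk T) :
    ∃ l, l ∉ T ∧ ∃ m ∈ T, u - Pi.single l 1 + Pi.single m 1 ∈ P.B := by
  obtain ⟨v0, hv0, h0⟩ := P.exists_eq_rk T
  obtain ⟨v, hv, hmin⟩ := Finset.exists_min_image
    (P.B.filter fun v => ∑ j ∈ T, u j < ∑ j ∈ T, v j) (fun v => dist1 v u)
    ⟨v0, by simp [hv0, h0, h]⟩
  simp only [mem_filter] at hv hmin
  obtain ⟨hv, hvT⟩ := hv
  have h1 : ∀ i, i ∉ T → v i ≤ u i := by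
    intro i hi
    by_contra hlt
    push Not at hlt
    obtain ⟨j, hj, hB⟩ := P.exch v hv u hu i hlt
    have h3 := sum_exch v i j T
    rw [if_neg hi] at h3
    have h4 := hmin _ ⟨hB, by rw [h3]; split_ifs <;> omega⟩
    have h5 := dist1_exch hlt hj
    omega
  have h2 : ∃ l, l ∉ T ∧ v l < u l := by
    by_contra hno
    push Not at hno
    have h3 := sum_add_sum_compl T u
    have h4 := sum_add_sum_compl T v
    have h5 : ∑ j ∈ Tᶜ, u j ≤ ∑ j ∈ Tᶜ, v j := sum_le_sum fun j hj => hno j (mem_compl.mp hj)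
    rw [P.deg u hu] at h3
    rw [P.deg v hv] at h4
    omega
  obtain ⟨l, hl, hlt⟩ := h2
  obtain ⟨m, hm, hB⟩ := P.exch u hu v hv l hlt
  refine ⟨l, hl, m, ?_, hB⟩
  by_contra hmT
  have := h1 m hmT
  omega

theorem mem_of_le {a : V → ℤ} (h1 : ∀ S, ∑ j ∈ S, a j ≤ P.rk S) (h2 : ∑ j, a j = P.d) :
    a ∈ P.B := by
  obtain ⟨u, hu, hmin⟩ := Finset.exists_min_image P.B (fun u => dist1 u a) P.ne
  by_cases hne : ∃ j, u j < a j
  · exfalso
    obtain ⟨j, hj⟩ := hne
    let T : Finset V := univ.filter fun i => u - Pi.single i 1 + Pi.single j 1 ∈ P.B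
    have hT : ∀ i, i ∈ T ↔ u - Pi.single i 1 + Pi.single j 1 ∈ P.B := by simp [T]
    have hjT : j ∈ T := by
      rw [hT]
      simpa using hu
    have htight : ∑ i ∈ T, u i = P.rk T := by
      apply le_antisymm (P.le_rk hu T)
      by_contra hlt
      push Not at hlt
      obtain ⟨l, hl, m, hm, hB⟩ := P.exists_improve hu hlt
      apply hl
      rw [hT]
      by_cases hmj : m = j
      · rwa [← hmj]
      have hlm : l ≠ m := fun h => hl (h ▸ hm)
      have hlj : l ≠ j := fun h => hl (h ▸ hjT)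
      obtain ⟨r, hr, hB'⟩ := P.exch _ ((hT m).mp hm) _ hB l (by
        simp [hlm, hlj])
      have hrm : r = m := by
        by_contra hrm
        simp only [Pi.add_apply, Pi.sub_apply, Pi.single_apply, if_neg hrm] at hr
        split_ifs at hr <;> omega
      subst hrm
      convert hB' using 1
      abel
    have h3 : ∃ i ∈ T, a i < u i := by
      by_contra hno
      push Not at hno
      have h4 : ∑ i ∈ T, u i < ∑ i ∈ T, a i := sum_lt_sum hno ⟨j, hjT, hj⟩
      have := h1 T
      omega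
    obtain ⟨i, hi, hlt⟩ := h3
    have h4 := hmin _ ((hT i).mp hi)
    have h5 := dist1_exch hlt hj
    omega
  · push Not at hne
    have h3 : ∑ j, a j = ∑ j, u j := by rw [h2, P.deg u hu]
    have h4 := (sum_eq_sum_iff_of_le (fun j _ => hne j)).mp h3
    have : a = u := funext fun j => h4 j (mem_univ _)
    rwa [this]

end PM

end Pool.Agent.P.MP_be6357_al
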