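import Pool.Agent.P.MP_be6357_al.Sandwich
import Pool.Agent.P.MP_be6357_al.Homology

namespace Pool.Agent.P.MP_be6357_al

open Finset

variable {V : Type} [Fintype V] [LinearOrder V]

/-- The indicator vector of a set. -/
def ind (F : Finset V) : V → ℤ := fun j => if j ∈ F then 1 else 0

omit [Fintype V] in
theorem sum_ind (F S : Finset V) : ∑ j ∈ S, ind F j = ((S ∩ F).card : ℤ) := by
  simp [ind, sum_ite_mem]

omit [Fintype V] in
theorem sum_sub_ind (a : V → ℤ) (F S : Finset V) :
    ∑ j ∈ S, (a - ind F) j = ∑ j ∈ S, a j - ((S ∩ F).card : ℤ) := by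
  simp only [Pi.sub_apply, sum_sub_distrib, sum_ind]

namespace PM

variable (P : PM V)

/-- Lattice points of the `k`-th dilate of the base polytope. -/
def InPow (k : ℕ) (a : V → ℤ) : Prop :=
  ∑ j, a j = k * P.d ∧ ∀ S, ∑ j ∈ S, a j ≤ k * P.rk S

theorem inPow_nonneg {k : ℕ} {a : V → ℤ} (h : P.InPow k a) (j : V) : 0 ≤ a j := by
  have h1 := sum_add_sum_compl {j} a
  have h2 := h.2 {j}ᶜ
  have h3 := mul_le_mul_of_nonneg_left (P.rk_le {j}ᶜ) (Int.natCast_nonneg k)
  rw [sum_singleton, h.1] at h1
  omega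

theorem inPow_zero {a : V → ℤ} : P.InPow 0 a ↔ a = 0 := by
  constructor
  · intro h
    ext j
    have h1 := P.inPow_nonneg h j
    have h2 := h.2 {j}
    simp only [sum_singleton, Nat.cast_zero, zero_mul] at h2
    simp only [Pi.zero_apply]
    omega
  · rintro rfl
    simp [InPow]

theorem inPow_add {k : ℕ} {a u : V → ℤ} (h : P.InPow k a) (hu : u ∈ P.B) :
    P.InPow (k + 1) (a + u) := by
  refine ⟨?_, fun S => ?_⟩
  · simp only [Pi.add_apply, sum_add_distrib, h.1, P.deg u hu]
    push_cast
    ring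
  · have h1 := h.2 S
    have h2 := P.le_rk hu S
    simp only [Pi.add_apply, sum_add_distrib]
    push_cast
    linarith

theorem inPow_succ {k : ℕ} {a : V → ℤ} (h : P.InPow (k + 1) a) :
    ∃ u ∈ P.B, P.InPow k (a - u) := by
  have hk : (0 : ℤ) ≤ k := Int.natCast_nonneg k
  obtain ⟨u, hu⟩ := sandwich (fun S => ∑ j ∈ S, a j - k * P.rk S) P.rk
    (fun S T => by
      have h1 := sum_union_inter (s₁ := S) (s₂ := T) (f := a)
      have h2 := mul_le_mul_of_nonneg_left (P.rk_submod S T) hk
      linarith)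
    P.rk_submod
    (fun S => by
      have h1 := h.2 S
      push_cast at h1
      linarith)
    (by simp [P.rk_empty]) P.rk_empty
  have h1 := hu univ
  have h2 := h.1
  rw [P.rk_univ] at h1
  push_cast at h2
  have h3 : ∑ j, u j = P.d := by linarith [h1.1, h1.2]
  refine ⟨u, P.mem_of_le (fun S => (hu S).2) h3, ?_, fun S => ?_⟩
  · simp only [Pi.sub_apply, sum_sub_distrib]
    linarith
  · simp only [Pi.sub_apply, sum_sub_distrib]
    linarith [(hu S).1]

/-- Exponents of the monomials in the `k`-th power. -/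
def Up (k : ℕ) (w : V → ℤ) : Prop := ∃ b, P.InPow k b ∧ ∀ j, b j ≤ w j

/-- The dual rank function of the `k`-th power. -/
def q (k : ℕ) (S : Finset V) : ℤ := k * P.d - k * P.rk Sᶜ

theorem q_supermod (k : ℕ) (S T : Finset V) :
    P.q k S + P.q k T ≤ P.q k (S ∪ T) + P.q k (S ∩ T) := by
  have h := mul_le_mul_of_nonneg_left (P.rk_submod Sᶜ Tᶜ) (Int.natCast_nonneg k)
  simp only [q, compl_union, compl_inter]
  linarith

theorem q_empty (k : ℕ) : P.q k ∅ = 0 := by simp [q, P.rk_univ]

theorem q_univ (k : ℕ) : P.q k univ = k * P.d := by simp [q, P.rk_empty]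

theorem up_iff {k : ℕ} {w : V → ℤ} : P.Up k w ↔ ∀ S, P.q k S ≤ ∑ j ∈ S, w j := by
  have hk : (0 : ℤ) ≤ k := Int.natCast_nonneg k
  constructor
  · rintro ⟨b, hb, hw⟩ S
    have h1 := sum_add_sum_compl S b
    have h2 := hb.2 Sᶜ
    have h3 : ∑ j ∈ S, b j ≤ ∑ j ∈ S, w j := sum_le_sum fun j _ => hw j
    rw [hb.1] at h1
    unfold q
    linarith
  · intro h
    have hw : ∀ j, 0 ≤ w j := by
      intro j
      have h1 := h {j}
      have h2 := mul_le_mul_of_nonneg_left (P.rk_le {j}ᶜ) hk
      rw [sum_singleton, q] at h1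
      linarith
    obtain ⟨b, hb⟩ := sandwich (P.q k) (fun S => min (∑ j ∈ S, w j) (k * P.d)) (P.q_supermod k)
      (fun S T => by
        have h1 := sum_union_inter (s₁ := S) (s₂ := T) (f := w)
        have h2 : ∑ j ∈ S ∩ T, w j ≤ ∑ j ∈ S, w j :=
          sum_le_sum_of_subset_of_nonneg inter_subset_left fun j _ _ => hw j
        have h3 : ∑ j ∈ S ∩ T, w j ≤ ∑ j ∈ T, w j :=
          sum_le_sum_of_subset_of_nonneg inter_subset_right fun j _ _ => hw j
        omega)
      (fun S => le_min (h S) (by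
        have := mul_nonneg hk (P.rk_nonneg Sᶜ)
        unfold q
        linarith))
      (P.q_empty k)
      (by
        have h1 := P.rk_nonneg univ
        rw [P.rk_univ] at h1
        simpa using mul_nonneg hk h1)
    have h1 := hb univ
    rw [P.q_univ] at h1
    have h2 : ∑ j, b j = k * P.d := le_antisymm (h1.2.trans (min_le_right _ _)) h1.1
    refine ⟨b, ⟨h2, fun S => ?_⟩, fun j => ?_⟩
    · have h3 := (hb Sᶜ).1
      have h4 := sum_add_sum_compl S b
      rw [q, compl_compl] at h3
      linarith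
    · have h3 := (hb {j}).2.trans (min_le_left _ _)
      simpa using h3

/-- The upper Koszul complex in degree `a`. -/
def Dl (k : ℕ) (a : V → ℤ) (F : Finset V) : Prop := P.Up k (a - ind F)

theorem dl_iff {k : ℕ} {a : V → ℤ} {F : Finset V} :
    P.Dl k a F ↔ ∀ S, ((S ∩ F).card : ℤ) ≤ ∑ j ∈ S, a j - P.q k S := by
  rw [Dl, up_iff]
  refine forall_congr' fun S => ?_
  rw [sum_sub_ind]
  constructor <;> intro h <;> linarith

/-- The largest tight set contains every element that cannot be added. -/
theorem exists_tight {k : ℕ} {a : V → ℤ} {F : Finset V} (hF : P.Dl k a F) :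
    ∃ T, ((T ∩ F).card : ℤ) = ∑ j ∈ T, a j - P.q k T ∧
      ∀ e, e ∉ F → ¬ P.Dl k a (insert e F) → e ∈ T := by
  rw [dl_iff] at hF
  obtain ⟨T, hT, hmax⟩ := Finset.exists_max_image
    (univ.filter fun T : Finset V => ((T ∩ F).card : ℤ) = ∑ j ∈ T, a j - P.q k T) card
    ⟨∅, by simp [P.q_empty]⟩
  simp only [mem_filter, mem_univ, true_and] at hT hmax
  refine ⟨T, hT, fun e he hno => ?_⟩
  rw [dl_iff] at hno
  push Not at hno
  obtain ⟨S, hS⟩ := hno
  have h1 := hF S
  have heS : e ∈ S := by
    by_contra h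
    rw [inter_insert_of_notMem h] at hS
    omega
  rw [inter_insert_of_mem heS, card_insert_of_notMem (fun h => he (mem_inter.mp h).2)] at hS
  push_cast at hS
  have h2 := hF (S ∪ T)
  have h3 := hF (S ∩ T)
  have h4 := P.q_supermod k S T
  have h5 := sum_union_inter (s₁ := S) (s₂ := T) (f := a)
  have h6 := sum_union_inter (s₁ := S) (s₂ := T) (f := ind F)
  simp only [sum_ind] at h6
  have h7 := hmax (S ∪ T) (by omega)
  have h8 : T = S ∪ T := eq_of_subset_of_card_le subset_union_right h7
  rw [h8]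
  exact mem_union_left _ heS

theorem isMat_dl (k : ℕ) (a : V → ℤ) : IsMat (P.Dl k a) where
  down := fun F G hG hFG => by
    rw [dl_iff] at hG ⊢
    intro S
    have h1 := hG S
    have h2 := card_le_card (inter_subset_inter (Subset.refl S) hFG)
    omega
  aug := fun F G hF hG hlt => by
    obtain ⟨T, hT, hmem⟩ := P.exists_tight hF
    by_contra hno
    push Not at hno
    have h1 := P.dl_iff.mp hG T
    have h2 : G \ T ⊆ F \ T := by
      intro e he
      rw [mem_sdiff] at he ⊢
      refine ⟨?_, he.2⟩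
      by_contra heF
      exact he.2 (hmem e heF (hno e he.1 heF))
    have h3 := card_le_card h2
    have h4 := card_sdiff_add_card_inter G T
    have h5 := card_sdiff_add_card_inter F T
    rw [inter_comm] at h4 h5
    omega

/-- The multidegrees of the `i`-th syzygies of the `k`-th power. -/
def HH (k i : ℕ) (a : V → ℤ) : Prop :=
  ∑ j, a j = k * P.d + i ∧
    ∀ S : Finset V, S.Nonempty → ∑ j ∈ S, a j ≤ k * P.rk S + min (i : ℤ) (S.card - 1)

theorem inPow_of_up {k : ℕ} {w : V → ℤ} (h : P.Up k w) (hw : ∑ j, w j = k * P.d) :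
    P.InPow k w := by
  obtain ⟨b, hb, hbw⟩ := h
  have h4 := (sum_eq_sum_iff_of_le (fun j _ => hbw j)).mp (hb.1.trans hw.symm)
  have : b = w := funext fun j => h4 j (mem_univ _)
  rwa [← this]

theorem exists_basis_of_HH {k i : ℕ} {a : V → ℤ} (h : P.HH k i a) (j : V) :
    ∃ F, P.InPow k (a - ind F) ∧ F.card = i ∧ j ∉ F := by
  have hk : (0 : ℤ) ≤ k := Int.natCast_nonneg k
  obtain ⟨x, hx⟩ := sandwich (fun S => ∑ l ∈ S, a l - k * P.rk S)
    (fun S => min ((S.erase j).card : ℤ) i)
    (fun S T => by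
      have h1 := sum_union_inter (s₁ := S) (s₂ := T) (f := a)
      have h2 := mul_le_mul_of_nonneg_left (P.rk_submod S T) hk
      linarith)
    (fun S T => by
      have h1 := card_union_add_card_inter (S.erase j) (T.erase j)
      have e1 : S.erase j ∪ T.erase j = (S ∪ T).erase j := by ext; simp; tauto
      have e2 : S.erase j ∩ T.erase j = (S ∩ T).erase j := by ext; simp; tauto
      have h2 := card_le_card (inter_subset_left (s₁ := S.erase j) (s₂ := T.erase j))
      have h3 := card_le_card (inter_subset_right (s₁ := S.erase j) (s₂ := T.erase j))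
      rw [e1, e2] at h1
      rw [e2] at h2 h3
      omega)
    (fun S => by
      rcases S.eq_empty_or_nonempty with rfl | hS
      · simp [P.rk_empty]
      · have h1 := h.2 S hS
        have h2 := pred_card_le_card_erase (s := S) (a := j)
        have h3 := hS.card_pos
        omega)
    (by simp [P.rk_empty]) (by simp)
  have h1 := hx univ
  rw [h.1, P.rk_univ] at h1
  have h2 : ∑ l, x l = i := by omega
  have h3 : ∀ l, 0 ≤ x l := by
    intro l
    have h4 := sum_add_sum_compl {l} x
    have h5 := (hx {l}ᶜ).2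
    rw [sum_singleton] at h4
    omega
  have h4 : ∀ l, x l ≤ 1 := by
    intro l
    have h5 := (hx {l}).2
    have h6 := card_erase_le (s := {l}) (a := j)
    rw [sum_singleton] at h5
    rw [card_singleton] at h6
    omega
  have h5 : x j = 0 := by
    have h5 := (hx {j}).2
    have h6 := h3 j
    rw [sum_singleton, erase_singleton, card_empty] at h5
    omega
  let F : Finset V := univ.filter fun l => x l = 1
  have hF : ind F = x := by
    ext l
    have := h3 l
    have := h4 l
    simp only [ind, F, mem_filter, mem_univ, true_and]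
    split_ifs <;> omega
  refine ⟨F, ⟨?_, fun S => ?_⟩, ?_, by simp [F, h5]⟩
  · rw [hF]
    simp only [Pi.sub_apply, sum_sub_distrib]
    linarith [h.1]
  · rw [hF]
    simp only [Pi.sub_apply, sum_sub_distrib]
    linarith [(hx S).1]
  · have h6 := sum_ind F univ
    rw [hF, h2, univ_inter] at h6
    omega

theorem HH_nonneg {k i : ℕ} {a : V → ℤ} (h : P.HH k i a) (j : V) : 0 ≤ a j := by
  obtain ⟨F, hF, -, hj⟩ := P.exists_basis_of_HH h j
  simpa [ind, hj] using P.inPow_nonneg hF j

theorem HH_iff {k i : ℕ} (hi : 0 < i) (a : V → ℤ) :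
    ((∀ G, P.Dl k a G → G.card ≤ i) ∧ (∃ F, P.Dl k a F ∧ F.card = i) ∧
      ∀ j, ∃ F, P.Dl k a F ∧ F.card = i ∧ j ∉ F) ↔ P.HH k i a := by
  constructor
  · rintro ⟨h1, ⟨F, hF, hFc⟩, h3⟩
    have hsum : ∑ j, a j = k * P.d + i := by
      obtain ⟨b, hb, hbw⟩ := hF
      by_contra hne
      have h4 : ∃ j, b j < (a - ind F) j := by
        by_contra hno
        push Not at hno
        have h5 : b = a - ind F := funext fun j => le_antisymm (hbw j) (hno j)
        have h6 := hb.1
        rw [h5, sum_sub_ind, univ_inter, hFc] at h6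
        exact hne (by linarith)
      obtain ⟨j, hj⟩ := h4
      obtain ⟨F', hF', hF'c, hjF'⟩ := h3 j
      obtain ⟨T, hT, hmem⟩ := P.exists_tight hF'
      have h5 : ∀ e, e ∉ F' → e ∈ T := fun e he => hmem e he fun hD => by
        have := h1 _ hD
        rw [card_insert_of_notMem he] at this
        omega
      have h6 := P.up_iff.mp ⟨b, hb, fun _ => le_rfl⟩ T
      have h7 : ∑ l ∈ T, b l < ∑ l ∈ T, (a - ind F) l :=
        sum_lt_sum (fun l _ => hbw l) ⟨j, h5 j hjF', hj⟩
      rw [sum_sub_ind] at h7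
      have h8 : F \ T ⊆ F' \ T := by
        intro e he
        rw [mem_sdiff] at he ⊢
        refine ⟨?_, he.2⟩
        by_contra heF
        exact he.2 (h5 e heF)
      have h9 := card_le_card h8
      have h10 := card_sdiff_add_card_inter F T
      have h11 := card_sdiff_add_card_inter F' T
      rw [inter_comm] at h10 h11
      omega
    refine ⟨hsum, fun S ⟨j, hj⟩ => ?_⟩
    obtain ⟨F', hF', hF'c, hjF'⟩ := h3 j
    have h4 := (P.inPow_of_up hF' (by rw [sum_sub_ind, univ_inter, hF'c, hsum]; ring)).2 S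
    rw [sum_sub_ind] at h4
    have h5 := card_le_card (inter_subset_right (s₁ := S) (s₂ := F'))
    have h6 : S ∩ F' ⊆ S.erase j := by
      intro l hl
      rw [mem_inter] at hl
      exact mem_erase.mpr ⟨fun h => hjF' (h ▸ hl.2), hl.1⟩
    have h7 := card_le_card h6
    have h8 := card_erase_add_one hj
    omega
  · intro h
    have h3 : ∀ j, ∃ F, P.Dl k a F ∧ F.card = i ∧ j ∉ F := fun j => by
      obtain ⟨F, h1, h2⟩ := P.exists_basis_of_HH h j
      exact ⟨F, ⟨_, h1, fun _ => le_rfl⟩, h2⟩
    refine ⟨fun G hG => ?_, ?_, h3⟩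
    · have h1 := P.dl_iff.mp hG univ
      rw [univ_inter, P.q_univ, h.1] at h1
      omega
    · rcases isEmpty_or_nonempty V with hV | ⟨⟨j⟩⟩
      · exfalso
        obtain ⟨u, hu⟩ := P.ne
        have h1 := P.deg u hu
        have h2 := h.1
        rw [univ_eq_empty, sum_empty] at h1 h2
        rw [← h1] at h2
        omega
      · obtain ⟨F, h1, h2, -⟩ := h3 j
        exact ⟨F, h1, h2⟩

theorem HH_add {k i : ℕ} {a u : V → ℤ} (h : P.HH k i a) (hu : u ∈ P.B) :
    P.HH (k + 1) i (a + u) := by
  refine ⟨?_, fun S hS => ?_⟩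
  · simp only [Pi.add_apply, sum_add_distrib, h.1, P.deg u hu]
    push_cast
    ring
  · have h1 := h.2 S hS
    have h2 := P.le_rk hu S
    simp only [Pi.add_apply, sum_add_distrib]
    push_cast
    linarith

/-- The key step: for `k ≥ i` the colon by the bases recovers the previous shift. -/
theorem HH_colon {k i : ℕ} (hik : i ≤ k) {w : V → ℤ}
    (h : ∀ u ∈ P.B, ∃ a', P.HH (k + 1) i a' ∧ ∀ j, a' j ≤ w j + u j) :
    ∃ a, P.HH k i a ∧ ∀ j, a j ≤ w j := by
  have hk : (0 : ℤ) ≤ k := Int.natCast_nonneg k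
  let g : Finset V → ℤ := fun S => k * P.rk S + min (i : ℤ) (S.card - 1)
  obtain ⟨m, ⟨a, haw, hag, rfl⟩, hmax⟩ := Int.exists_greatest_of_bdd
    (P := fun m => ∃ a : V → ℤ, (∀ j, a j ≤ w j) ∧
      (∀ S : Finset V, S.Nonempty → ∑ j ∈ S, a j ≤ g S) ∧ ∑ j, a j = m)
    ⟨∑ j, w j, by
      rintro _ ⟨a, h1, -, rfl⟩
      exact sum_le_sum fun j _ => h1 j⟩
    ⟨_, fun j => min (w j) 0, fun j => min_le_left _ _, fun S hS => by
      have h1 : ∑ j ∈ S, min (w j) 0 ≤ 0 := sum_nonpos fun j _ => min_le_right _ _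
      have h2 := mul_nonneg hk (P.rk_nonneg S)
      have h3 := hS.card_pos
      simp only [g]
      omega, rfl⟩
  have htight : ∀ j, a j < w j → ∃ S, j ∈ S ∧ ∑ l ∈ S, a l = g S := by
    intro j hj
    by_contra hno
    push Not at hno
    have hs : ∀ S : Finset V, ∑ l ∈ S, (a + Pi.single j 1 : V → ℤ) l =
        ∑ l ∈ S, a l + if j ∈ S then 1 else 0 := by
      intro S
      simp [sum_add_distrib, Pi.single_apply]
    have h1 := hmax _ ⟨a + Pi.single j 1, fun l => ?_, fun S hS => ?_, rfl⟩
    · rw [hs, if_pos (mem_univ _)] at h1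
      omega
    · have := haw l
      simp only [Pi.add_apply, Pi.single_apply]
      split_ifs with hl
      · subst hl
        omega
      · omega
    · have h2 := hag S hS
      rw [hs]
      split_ifs with hjS
      · have := hno S hjS
        omega
      · omega
  have hunion : ∀ S T : Finset V, (S ∩ T).Nonempty → ∑ l ∈ S, a l = g S → ∑ l ∈ T, a l = g T →
      ∑ l ∈ S ∪ T, a l = g (S ∪ T) := by
    intro S T hne hS hT
    have h1 := hag _ hne
    have h2 := hag (S ∪ T) (hne.mono inter_subset_union)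
    have h3 := sum_union_inter (s₁ := S) (s₂ := T) (f := a)
    have h4 := mul_le_mul_of_nonneg_left (P.rk_submod S T) hk
    have h5 := card_union_add_card_inter S T
    have h6 := card_le_card (inter_subset_left (s₁ := S) (s₂ := T))
    have h7 := card_le_card (inter_subset_right (s₁ := S) (s₂ := T))
    simp only [g] at *
    rw [mul_add, mul_add] at h4
    omega
  have hcover : ∀ X : Finset V, (∀ j ∈ X, a j < w j) → ∃ (T : Finset V) (x : ℤ), X ⊆ T ∧
      (∀ S, (S ∩ T).Nonempty → ∑ l ∈ S, a l = g S → S ⊆ T) ∧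
      (∀ a', P.HH (k + 1) i a' → ∑ l ∈ T, a' l ≤ ∑ l ∈ T, a l + x) ∧
      k * x ≤ ∑ l ∈ T, a l ∧ P.rk T ≤ x := by
    intro X
    induction X using Finset.induction_on with
    | empty =>
      exact fun _ => ⟨∅, 0, Subset.rfl, fun S hS => by simp at hS, by simp, by simp,
        P.rk_empty.le⟩
    | insert j X _ ih =>
      intro hX
      obtain ⟨T, x, h1, h2, h3, h4, h5⟩ := ih fun l hl => hX l (mem_insert_of_mem hl)
      by_cases hjT : j ∈ T
      · exact ⟨T, x, insert_subset hjT h1, h2, h3, h4, h5⟩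
      obtain ⟨S0, hS0⟩ := htight j (hX j (mem_insert_self _ _))
      obtain ⟨U, hU, hUmax⟩ := Finset.exists_max_image
        (univ.filter fun S : Finset V => j ∈ S ∧ ∑ l ∈ S, a l = g S) card ⟨S0, by simpa using hS0⟩
      simp only [mem_filter, mem_univ, true_and] at hU hUmax
      have hdisj : Disjoint T U := by
        rw [disjoint_iff_inter_eq_empty, inter_comm]
        by_contra hne
        exact hjT (h2 U (nonempty_iff_ne_empty.mpr hne) hU.2 hU.1)
      have hUc : 0 < U.card := card_pos.mpr ⟨j, hU.1⟩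
      refine ⟨T ∪ U, x + P.rk U, insert_subset (mem_union_right _ hU.1)
        (h1.trans subset_union_left), fun S hS hSt => ?_, fun a' ha' => ?_, ?_, ?_⟩
      · rw [inter_union_distrib_left, union_nonempty] at hS
        rcases hS with hS | hS
        · exact (h2 S hS hSt).trans subset_union_left
        · have h6 := hUmax (S ∪ U) ⟨mem_union_right _ hU.1, hunion S U hS hSt hU.2⟩
          have h7 : U = S ∪ U := eq_of_subset_of_card_le subset_union_right h6
          refine Subset.trans ?_ subset_union_right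
          rw [h7]
          exact subset_union_left
      · have h6 := h3 a' ha'
        have h7 := ha'.2 U ⟨j, hU.1⟩
        have h8 := hU.2
        rw [sum_union hdisj, sum_union hdisj]
        simp only [g] at h8
        push_cast at h7
        linarith
      · have h8 := hU.2
        rw [sum_union hdisj, mul_add]
        simp only [g] at h8
        omega
      · have h6 := P.rk_submod T U
        have h7 := P.rk_nonneg (T ∩ U)
        omega
  obtain ⟨T, x, h1, -, h3, h4, h5⟩ := hcover (univ.filter fun j => a j < w j) (by simp)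
  obtain ⟨u, hu, huT⟩ := P.exists_eq_rk T
  obtain ⟨a', ha', hle⟩ := h u hu
  have h6 : ∑ l ∈ Tᶜ, a' l ≤ ∑ l ∈ Tᶜ, a l + ∑ l ∈ Tᶜ, u l := by
    rw [← sum_add_distrib]
    refine sum_le_sum fun l hl => ?_
    have h7 : ¬ a l < w l := fun h => mem_compl.mp hl (h1 (by simpa using h))
    have := hle l
    omega
  have h7 := sum_add_sum_compl T a
  have h8 := sum_add_sum_compl T a'
  have h9 := sum_add_sum_compl T u
  rw [P.deg u hu] at h9
  have h10 := ha'.1
  push_cast at h10
  have h11 : ∑ l ∈ T, a' l ≤ ∑ l ∈ T, a l + P.rk T := by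
    rcases h5.eq_or_lt with h12 | h12
    · rw [h12]
      exact h3 a' ha'
    · rcases T.eq_empty_or_nonempty with rfl | hT
      · simp [P.rk_empty]
      · have h13 := ha'.2 T hT
        have h14 := mul_le_mul_of_nonneg_left (show P.rk T + 1 ≤ x by omega) hk
        have h15 := min_le_left (i : ℤ) (T.card - 1)
        have h16 : (i : ℤ) ≤ k := by exact_mod_cast hik
        push_cast at h13
        linarith
  refine ⟨a, ⟨le_antisymm ?_ (by linarith), hag⟩, haw⟩
  rcases (univ : Finset V).eq_empty_or_nonempty with hV | hV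
  · have h12 := P.deg u hu
    rw [hV, sum_empty] at h12
    rw [hV, sum_empty, ← h12]
    simp
  · have h12 := hag univ hV
    have h13 := min_le_left (i : ℤ) ((univ : Finset V).card - 1)
    simp only [g, P.rk_univ] at h12
    linarith

end PM

end Pool.Agent.P.MP_be6357_al
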